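import Pool.Agent.W2helper81.BY.Stm

/-!
# Project BY: common roots and divisibility
-/

set_option autoImplicit false

namespace Pool.Agent.W2helper98.BY

open Polynomial Pool.Agent.W2helper81.BY

theorem ROOTS_ok : P_ROOTS := by
  intro K L _ _ _ _ f h hf hroots
  induction f using UniqueFactorizationMonoid.induction_on_prime with
  | h₁ => exact absurd rfl hf
  | h₂ u hu => exact ⟨0, hu.dvd⟩
  | h₃ a p ha hp ih =>
    have hpi : Irreducible p := hp.irreducible
    obtain ⟨N, hN⟩ := ih ha fun z hz => hroots z (by rw [map_mul, hz, mul_zero])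
    have hph : p ∣ h := by
      by_contra hc
      obtain ⟨u, v, huv⟩ := (hpi.coprime_iff_not_dvd).mpr hc
      obtain ⟨z, hz⟩ := IsAlgClosed.exists_aeval_eq_zero L p
        (by rw [ne_eq, ← isUnit_iff_degree_eq_zero]; exact hpi.not_isUnit)
      have h1 : aeval z h = 0 := hroots z (by rw [map_mul, hz, zero_mul])
      have h2 := congrArg (aeval z) huv
      rw [map_add, map_mul, map_mul, hz, h1, mul_zero, mul_zero, add_zero, map_one] at h2
      exact zero_ne_one h2
    refine ⟨N + 1, ?_⟩
    rw [pow_succ']
    exact mul_dvd_mul hph hN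

end Pool.Agent.W2helper98.BY
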